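import Pool.Agent.V11202.GM.Ex2b

set_option autoImplicit false

open scoped Manifold ContDiff Topology
open Module Metric Pool.Agent.V11202.GM

namespace Pool.Agent.Results.MP_9877a5_gt.SevenSphere

/-- The action is effective. -/
def Effective (X : GMan 7) : Prop := ∀ g : X.G, (∀ x : X.M, g • x = x) → g = 1

/-- The singular orbits are exactly two orbits, those of two points `p` and `q`, and no
automorphism of the group maps the isotropy group of `p` onto that of `q`. -/
def TwoDifferentSingularOrbits (X : GMan 7) : Prop :=
  ∃ p q : X.M, X.singular = {MulAction.orbit X.G p, MulAction.orbit X.G q} ∧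
    MulAction.orbit X.G p ≠ MulAction.orbit X.G q ∧
    ∀ φ : X.G ≃* X.G, (MulAction.stabilizer X.G p).map φ.toMonoidHom ≠
      MulAction.stabilizer X.G q

/-- The manifold admits almost nonnegative sectional curvature: for every `ε > 0` it has a
Riemannian metric of sectional curvature at least `-ε` and diameter at most `1`. -/
def AlmostNonnegative (X : GMan 7) : Prop :=
  ∀ ε : ℝ, 0 < ε → ∃ g : X.Metric, X.SecAtLeast g (-ε) ∧ X.DiamAtMost g 1

/-- There is a closed connected `7`-manifold with a smooth effective action of a compact connected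
Lie group, with finitely many non-principal orbits, cohomogeneity `3`, and two different singular
orbits, which admits almost nonnegative sectional curvature. -/
theorem result :
    ∃ X : GMan 7, ConnectedSpace X.G ∧ Effective X ∧ X.FinitelyManyNonPrincipal ∧
      X.HasCohomogeneity 3 ∧ TwoDifferentSingularOrbits X ∧ AlmostNonnegative X := by
  refine ⟨{ EG := EuclideanSpace ℝ (Fin 3) × EuclideanSpace ℝ (Fin 1),
            HG := ModelProd (EuclideanSpace ℝ (Fin 3)) (EuclideanSpace ℝ (Fin 1)),
            IG := (𝓡 3).prod (𝓡 1),
            G := G2, compactG := inferInstance, t2G := inferInstance, M := M2,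
            compactM := inferInstance, t2M := inferInstance, connM := connected_M2,
            smooth := L2.contMDiff }, ?_, ?_, ?_, ⟨⟨p2, principal_gen2 p2_gen⟩, ?_⟩, ?_, ?_⟩
  · exact (inferInstance : ConnectedSpace (Sp1 × S1))
  · intro g hg
    exact stab_gen2 p2_gen (hg p2)
  · show (nonPrincipalOrbits G2 M2).Finite
    rw [nonPrincipal_eq2]
    exact Set.toFinite _
  · intro p hp
    have hpg : Gen2 p := by
      by_contra h
      exact not_principal2 h hp
    exact congrArg (· + 3) (dim_gen2 hpg)
  · refine ⟨qA, qB, ?_, ?_, not_aut⟩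
    · show singularOrbits ((𝓡 3).prod (𝓡 1)) (𝓡 7) G2 M2 =
        {MulAction.orbit G2 qA, MulAction.orbit G2 qB}
      rw [singular_eq2, orbitA rfl, orbitB rfl]
    · show MulAction.orbit G2 qA ≠ MulAction.orbit G2 qB
      rw [orbitA rfl, orbitB rfl]
      intro h
      have h1 : qA ∈ OA := rfl
      rw [h] at h1
      exact one_ne_zero (show (1 : Quaternion ℝ) = 0 from h1)
  · intro ε hε
    exact ⟨(roundMetric (1 / 16) (by norm_num) : Bundle.ContMDiffRiemannianMetric (𝓡 7) ∞
      (EuclideanSpace ℝ (Fin 7)) (fun x : M2 => TangentSpace (𝓡 7) x)),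
      secGe_round (1 / 16) (by norm_num) (by linarith),
      diamLe_round (by norm_num) (1 / 16) (by norm_num) le_rfl⟩

end Pool.Agent.Results.MP_9877a5_gt.SevenSphere
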